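import Mathlib
import Pool.Agent.TH438.Hull.Polar

set_option autoImplicit false

/-!
# The gauges of a body and of its polar body
-/

namespace Pool.Agent.R166.Solid

open Set Topology Module
open scoped InnerProductSpace
open Pool.Agent.TH438.Hull

section One

variable {E : Type*} [NormedAddCommGroup E] [InnerProductSpace ℝ E]

theorem absorbs_of {L : Set E} (h0 : (0 : E) ∈ interior L) : Absorbent ℝ L :=
  absorbent_nhds_zero (mem_interior_iff_mem_nhds.1 h0)

theorem gauge_pos_of {L : Set E} (hLc : IsCompact L) (h0 : (0 : E) ∈ interior L) {x : E}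
    (hx : x ≠ 0) : 0 < gauge L x :=
  (gauge_pos (absorbs_of h0) (NormedSpace.isVonNBounded_of_isBounded ℝ hLc.isBounded)).2 hx

theorem mem_of_gauge {L : Set E} (hL : Convex ℝ L) (hLc : IsCompact L)
    (h0 : (0 : E) ∈ interior L) {x : E} (hx : gauge L x ≤ 1) : x ∈ L := by
  rw [gauge_le_one_iff_mem_closure hL (mem_interior_iff_mem_nhds.1 h0)] at hx
  rwa [hLc.isClosed.closure_eq] at hx

theorem scaled_mem {L : Set E} (hL : Convex ℝ L) (hLc : IsCompact L)
    (h0 : (0 : E) ∈ interior L) {x : E} (hx : x ≠ 0) : (gauge L x)⁻¹ • x ∈ L := by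
  have h1 := gauge_pos_of hLc h0 hx
  refine mem_of_gauge hL hLc h0 ?_
  rw [gauge_smul_of_nonneg (inv_nonneg.2 h1.le), smul_eq_mul, inv_mul_cancel₀ h1.ne']

theorem gauge_scaled {L : Set E} (hLc : IsCompact L)
    (h0 : (0 : E) ∈ interior L) {x : E} (hx : x ≠ 0) : gauge L ((gauge L x)⁻¹ • x) = 1 := by
  have h1 := gauge_pos_of hLc h0 hx
  rw [gauge_smul_of_nonneg (inv_nonneg.2 h1.le), smul_eq_mul, inv_mul_cancel₀ h1.ne']

/-- the polar inequality -/
theorem inner_le_gauge [FiniteDimensional ℝ E] {L : Set E} (hL : Convex ℝ L) (hLc : IsCompact L)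
    (h0 : (0 : E) ∈ interior L) (v x : E) : ⟪v, x⟫_ℝ ≤ gauge (Pol L 0) v * gauge L x := by
  rcases eq_or_ne v 0 with rfl | hv
  · rw [inner_zero_left, gauge_zero, zero_mul]
  rcases eq_or_ne x 0 with rfl | hx
  · rw [inner_zero_right, gauge_zero, mul_zero]
  have hP0 : (0 : E) ∈ interior (Pol L 0) := Pol.zero_mem_interior hLc
  have hPc : IsCompact (Pol L 0) := Pol.isCompact h0
  have h1 := gauge_pos_of hLc h0 hx
  have h2 := gauge_pos_of hPc hP0 hv
  have h3 := scaled_mem hL hLc h0 hx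
  have h4 := scaled_mem (Pol.convex L 0) hPc hP0 hv
  have h5 := h4 _ h3
  rw [sub_zero, real_inner_smul_left, real_inner_smul_right, ← mul_assoc, ← mul_inv,
    inv_mul_le_iff₀ (by positivity), mul_one] at h5
  exact h5

/-- The supremum is attained at a point with gauge one. -/
theorem exists_attained [FiniteDimensional ℝ E] [Nontrivial E] {L : Set E} (hL : Convex ℝ L)
    (hLc : IsCompact L) (h0 : (0 : E) ∈ interior L) (v : E) :
    ∃ z : E, gauge L z = 1 ∧ ⟪v, z⟫_ℝ = gauge (Pol L 0) v := by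
  rcases eq_or_ne v 0 with rfl | hv
  · obtain ⟨x, hx⟩ := exists_ne (0 : E)
    exact ⟨_, gauge_scaled hLc h0 hx, by rw [inner_zero_left, gauge_zero]⟩
  obtain ⟨z, hz, hmax⟩ := hLc.exists_isMaxOn ⟨0, interior_subset h0⟩
    (f := fun x => ⟪v, x⟫_ℝ) (by fun_prop)
  have hP0 : (0 : E) ∈ interior (Pol L 0) := Pol.zero_mem_interior hLc
  have hPc : IsCompact (Pol L 0) := Pol.isCompact h0
  have hs : 0 < ⟪v, z⟫_ℝ := by
    have h1 := hmax (scaled_mem hL hLc h0 hv)
    have h2 : ⟪v, (gauge L v)⁻¹ • v⟫_ℝ ≤ ⟪v, z⟫_ℝ := h1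
    rw [real_inner_smul_right, real_inner_self_eq_norm_sq] at h2
    have h3 := gauge_pos_of hLc h0 hv
    have h4 : 0 < ‖v‖ := norm_pos_iff.2 hv
    have h5 : 0 < (gauge L v)⁻¹ * ‖v‖ ^ 2 := by positivity
    linarith
  have h1 : (⟪v, z⟫_ℝ)⁻¹ • v ∈ Pol L 0 := by
    intro y hy
    rw [sub_zero, real_inner_smul_left, inv_mul_le_iff₀ hs, mul_one]
    exact hmax hy
  have h2 : gauge (Pol L 0) v ≤ ⟪v, z⟫_ℝ := by
    have h3 := gauge_le_one_of_mem h1
    rw [gauge_smul_of_nonneg (inv_nonneg.2 hs.le), smul_eq_mul, inv_mul_le_iff₀ hs, mul_one] at h3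
    exact h3
  have h3 := inner_le_gauge hL hLc h0 v z
  have h4 : gauge L z ≤ 1 := gauge_le_one_of_mem hz
  have h5 := gauge_pos_of hPc hP0 hv
  have h6 : gauge (Pol L 0) v * gauge L z ≤ gauge (Pol L 0) v := by nlinarith
  refine ⟨z, ?_, by linarith⟩
  have h7 : gauge (Pol L 0) v ≤ gauge (Pol L 0) v * gauge L z := by linarith
  have h8 : 1 ≤ gauge L z := by
    by_contra hcon
    push Not at hcon
    nlinarith
  linarith

end One

variable {ι : Type} [Fintype ι] {E : ι → Type} [∀ j, NormedAddCommGroup (E j)]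
  [∀ j, InnerProductSpace ℝ (E j)] [∀ j, FiniteDimensional ℝ (E j)] [∀ j, Nontrivial (E j)]

/-- The polar body is monotone in the gauges of the polars of the blocks. -/
theorem pol_mono {L : ∀ j, Set (E j)} (hL : ∀ j, Convex ℝ (L j)) (hLc : ∀ j, IsCompact (L j))
    (hL0 : ∀ j, (0 : E j) ∈ interior (L j)) {K : Set (PiLp 2 E)}
    (hinv : ∀ x ∈ K, ∀ y : PiLp 2 E, (∀ j, gauge (L j) (y j) = gauge (L j) (x j)) → y ∈ K)
    {v v' : PiLp 2 E} (hv : v ∈ Pol K 0)
    (hle : ∀ j, gauge (Pol (L j) 0) (v' j) ≤ gauge (Pol (L j) 0) (v j)) : v' ∈ Pol K 0 := by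
  intro x hx
  choose z hz1 hz2 using fun j => exists_attained (hL j) (hLc j) (hL0 j) (v j)
  have hx' : (WithLp.toLp 2 fun j => gauge (L j) (x j) • z j : PiLp 2 E) ∈ K := by
    refine hinv x hx _ fun j => ?_
    show gauge (L j) (gauge (L j) (x j) • z j) = gauge (L j) (x j)
    rw [gauge_smul_of_nonneg (gauge_nonneg _), smul_eq_mul, hz1, mul_one]
  have h1 := hv _ hx'
  rw [sub_zero, PiLp.inner_apply] at h1 ⊢
  refine le_trans (Finset.sum_le_sum fun j _ => ?_) h1
  show ⟪v' j, x j⟫_ℝ ≤ ⟪v j, gauge (L j) (x j) • z j⟫_ℝ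
  rw [real_inner_smul_right, hz2, mul_comm]
  refine (inner_le_gauge (hL j) (hLc j) (hL0 j) _ _).trans ?_
  exact mul_le_mul_of_nonneg_right (hle j) (gauge_nonneg _)

end Pool.Agent.R166.Solid
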