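import Pool.Agent.R166.Solid.Gauge
import Pool.Agent.R753.Sums
import Pool.Agent.R753.Three
import Pool.Agent.H765R3.Had.Inv

set_option autoImplicit false

/-!
# Coverings of the polar body of a gauge invariant body
-/

namespace Pool.Agent.R166.Solid

open Set Topology Module
open scoped InnerProductSpace
open Pool.Agent.TH438.Hull

variable {ι : Type} [Fintype ι] [DecidableEq ι] {E : ι → Type} [∀ j, NormedAddCommGroup (E j)]
  [∀ j, InnerProductSpace ℝ (E j)] [∀ j, FiniteDimensional ℝ (E j)] [∀ j, Nontrivial (E j)]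

omit [DecidableEq ι] [∀ j, FiniteDimensional ℝ (E j)] [∀ j, Nontrivial (E j)] in
/-- transport of coverings to the Euclidean product -/
theorem cov_transport {P : Set (PiLp 2 E)} (T : Finset (∀ j, E j))
    (hT : {x : ∀ j, E j | (WithLp.toLp 2 x : PiLp 2 E) ∈ P} ⊆ ⋃ t ∈ T, (fun x => t + x) ''
      interior {x : ∀ j, E j | (WithLp.toLp 2 x : PiLp 2 E) ∈ P}) :
    ∃ S : Finset (PiLp 2 E), S.card ≤ T.card ∧ P ⊆ ⋃ t ∈ S, (fun x => t + x) '' interior P := by
  classical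
  let H : (∀ j, E j) ≃ₜ PiLp 2 E := (PiLp.continuousLinearEquiv 2 ℝ E).symm.toHomeomorph
  have hH : ∀ x, H x = WithLp.toLp 2 x := fun x => rfl
  have hQ : {x : ∀ j, E j | (WithLp.toLp 2 x : PiLp 2 E) ∈ P} = H ⁻¹' P := rfl
  rw [hQ, ← H.preimage_interior] at hT
  refine ⟨T.image fun t => WithLp.toLp 2 t, Finset.card_image_le, fun v hv => ?_⟩
  have h1 : H.symm v ∈ H ⁻¹' P := by
    rw [Set.mem_preimage, H.apply_symm_apply]
    exact hv
  obtain ⟨t, ht, q, hq, hqe⟩ := Set.mem_iUnion₂.1 (hT h1)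
  refine Set.mem_iUnion₂.2 ⟨WithLp.toLp 2 t, Finset.mem_image_of_mem _ ht, H q, hq, ?_⟩
  have h2 : H (H.symm v) = H (t + q) := by rw [← hqe]
  rw [H.apply_symm_apply, hH] at h2
  show WithLp.toLp 2 t + H q = v
  rw [h2, hH, WithLp.toLp_add]

/-- The polar body as a solid sum. -/
theorem exists_M {L : ∀ j, Set (E j)} (hL : ∀ j, Convex ℝ (L j)) (hLc : ∀ j, IsCompact (L j))
    (hL0 : ∀ j, (0 : E j) ∈ interior (L j)) {K : Set (PiLp 2 E)} (hKc : IsCompact K)
    (hK0 : (0 : PiLp 2 E) ∈ interior K)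
    (hinv : ∀ x ∈ K, ∀ y : PiLp 2 E, (∀ j, gauge (L j) (y j) = gauge (L j) (x j)) → y ∈ K) :
    ∃ M : Set (ι → ℝ), Convex ℝ M ∧ IsClosed M ∧ (0 : ι → ℝ) ∈ interior M ∧
      Pool.Agent.R753.Sol M ∧
      {x : ∀ j, E j | (WithLp.toLp 2 x : PiLp 2 E) ∈ Pol K 0} =
        {x | (fun j => gauge (Pol (L j) 0) (x j)) ∈ M} := by
  have hP0 : ∀ j, (0 : E j) ∈ interior (Pol (L j) 0) := fun j => Pol.zero_mem_interior (hLc j)
  have hPc : ∀ j, IsCompact (Pol (L j) 0) := fun j => Pol.isCompact (hL0 j)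
  have hz : ∀ j, ∃ z : E j, gauge (Pol (L j) 0) z = 1 := fun j => by
    obtain ⟨x, hx⟩ := exists_ne (0 : E j)
    exact ⟨_, gauge_scaled (hPc j) (hP0 j) hx⟩
  choose z hz using hz
  have hg : ∀ (t : ι → ℝ) (j : ι), gauge (Pol (L j) 0)
      ((WithLp.toLp 2 fun j => |t j| • z j : PiLp 2 E) j) = |t j| := by
    intro t j
    show gauge (Pol (L j) 0) (|t j| • z j) = |t j|
    rw [gauge_smul_of_nonneg (abs_nonneg _), smul_eq_mul, hz, mul_one]
  have hmono := fun (v v' : PiLp 2 E) (hv : v ∈ Pol K 0)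
    (hle : ∀ j, gauge (Pol (L j) 0) (v' j) ≤ gauge (Pol (L j) 0) (v j)) =>
      pol_mono hL hLc hL0 hinv hv hle
  have hcont : Continuous fun t : ι → ℝ => (WithLp.toLp 2 fun j => |t j| • z j : PiLp 2 E) := by
    refine (PiLp.continuous_toLp 2 E).comp ?_
    refine continuous_pi fun j => ?_
    exact ((continuous_apply j).abs).smul continuous_const
  refine ⟨{t | (WithLp.toLp 2 fun j => |t j| • z j : PiLp 2 E) ∈ Pol K 0}, ?_, ?_, ?_, ?_, ?_⟩
  · intro a ha b hb p q hp hq hpq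
    have h1 : p • (WithLp.toLp 2 fun j => |a j| • z j : PiLp 2 E) +
        q • (WithLp.toLp 2 fun j => |b j| • z j : PiLp 2 E) ∈ Pol K 0 :=
      Pol.convex K 0 ha hb hp hq hpq
    have h2 : p • (WithLp.toLp 2 fun j => |a j| • z j : PiLp 2 E) +
        q • (WithLp.toLp 2 fun j => |b j| • z j : PiLp 2 E) =
        WithLp.toLp 2 fun j => abs (p * |a j| + q * |b j|) • z j := by
      ext j
      show p • |a j| • z j + q • |b j| • z j = abs (p * |a j| + q * |b j|) • z j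
      have h0 : 0 ≤ p * |a j| + q * |b j| := by positivity
      rw [abs_of_nonneg h0, add_smul, mul_smul, mul_smul]
    rw [h2] at h1
    show (WithLp.toLp 2 fun j => |(p • a + q • b) j| • z j : PiLp 2 E) ∈ Pol K 0
    refine hmono _ _ h1 fun j => ?_
    rw [hg, hg]
    simp only [Pi.add_apply, Pi.smul_apply, smul_eq_mul]
    rw [abs_of_nonneg (by positivity : 0 ≤ p * |a j| + q * |b j|)]
    calc |p * a j + q * b j| ≤ |p * a j| + |q * b j| := abs_add_le _ _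
      _ = p * |a j| + q * |b j| := by rw [abs_mul, abs_mul, abs_of_nonneg hp, abs_of_nonneg hq]
  · exact (Pol.isClosed K 0).preimage hcont
  · rw [mem_interior_iff_mem_nhds]
    have h1 : Filter.Tendsto (fun t : ι → ℝ => (WithLp.toLp 2 fun j => |t j| • z j : PiLp 2 E)) (𝓝 0)
        (𝓝 0) := by
      have := hcont.tendsto 0
      have e : (WithLp.toLp 2 fun j => |(0 : ι → ℝ) j| • z j : PiLp 2 E) = 0 := by
        ext j
        show |(0 : ℝ)| • z j = 0
        rw [abs_zero, zero_smul]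
      rwa [e] at this
    exact h1 (mem_interior_iff_mem_nhds.1 (Pol.zero_mem_interior hKc))
  · intro x hx y hy
    refine hmono _ _ hx fun j => ?_
    rw [hg, hg]
    have h1 := hy j
    rw [Set.mem_uIcc] at h1
    rcases h1 with h1 | h1
    · rw [abs_of_nonneg h1.1, abs_of_nonneg (h1.1.trans h1.2)]
      exact h1.2
    · rw [abs_of_nonpos h1.2, abs_of_nonpos (h1.1.trans h1.2)]
      linarith [h1.1]
  · ext x
    constructor
    · intro hx
      refine hmono _ _ hx fun j => ?_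
      rw [hg, abs_of_nonneg (gauge_nonneg _)]
    · intro hx
      refine hmono _ _ hx fun j => ?_
      rw [hg, abs_of_nonneg (gauge_nonneg _)]

theorem bounded_pre {P : Set (PiLp 2 E)} (hP : IsCompact P) :
    Bornology.IsBounded {x : ∀ j, E j | (WithLp.toLp 2 x : PiLp 2 E) ∈ P} := by
  let H : (∀ j, E j) ≃ₜ PiLp 2 E := (PiLp.continuousLinearEquiv 2 ℝ E).symm.toHomeomorph
  have hQ : {x : ∀ j, E j | (WithLp.toLp 2 x : PiLp 2 E) ∈ P} = H ⁻¹' P := rfl
  rw [hQ]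
  exact (H.isCompact_preimage.2 hP).isBounded

/-- Kraft sums. -/
theorem kraft_pol {L : ∀ j, Set (E j)} (hL : ∀ j, Convex ℝ (L j)) (hLc : ∀ j, IsCompact (L j))
    (hL0 : ∀ j, (0 : E j) ∈ interior (L j)) {K : Set (PiLp 2 E)} (hKc : IsCompact K)
    (hK0 : (0 : PiLp 2 E) ∈ interior K)
    (hinv : ∀ x ∈ K, ∀ y : PiLp 2 E, (∀ j, gauge (L j) (y j) = gauge (L j) (x j)) → y ∈ K)
    (N : ι → ℕ) (hsum : ∑ j, (1 : ℝ) / N j ≤ 1)
    (hcov : ∀ j, ∃ T : Finset (E j), T.card ≤ N j ∧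
      Pol (L j) 0 ⊆ ⋃ t ∈ T, (fun x => t + x) '' interior (Pol (L j) 0)) :
    ∃ T : Finset (PiLp 2 E), T.card ≤ ∏ j, N j ∧
      Pol K 0 ⊆ ⋃ t ∈ T, (fun x => t + x) '' interior (Pol K 0) := by
  obtain ⟨M, hM1, hM2, hM3, hM4, hM5⟩ := exists_M hL hLc hL0 hKc hK0 hinv
  obtain ⟨-, -, -, T, hT, h1⟩ := Pool.Agent.R753.kraft (fun j => Pol (L j) 0)
    (fun j => Pol.convex _ _) (fun j => Pol.isCompact (hL0 j))
    (fun j => Pol.zero_mem_interior (hLc j)) N hsum hcov M hM1 hM2 hM3 hM4 _ hM5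
    (bounded_pre (Pol.isCompact hK0))
  obtain ⟨S, hS, h2⟩ := cov_transport T h1
  exact ⟨S, hS.trans hT, h2⟩

omit [DecidableEq ι] in
/-- The general bound. -/
theorem general_pol [Nonempty ι] {L : ∀ j, Set (E j)} (hL : ∀ j, Convex ℝ (L j))
    (hLc : ∀ j, IsCompact (L j))
    (hL0 : ∀ j, (0 : E j) ∈ interior (L j)) {K : Set (PiLp 2 E)} (hKc : IsCompact K)
    (hK0 : (0 : PiLp 2 E) ∈ interior K)
    (hinv : ∀ x ∈ K, ∀ y : PiLp 2 E, (∀ j, gauge (L j) (y j) = gauge (L j) (x j)) → y ∈ K)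
    (N : ι → ℕ)
    (hcov : ∀ j, ∃ T : Finset (E j), T.card ≤ N j ∧
      Pol (L j) 0 ⊆ ⋃ t ∈ T, (fun x => t + x) '' interior (Pol (L j) 0)) :
    ∃ T : Finset (PiLp 2 E), T.card ≤ ∏ j, (N j + 1) - 1 ∧
      Pol K 0 ⊆ ⋃ t ∈ T, (fun x => t + x) '' interior (Pol K 0) := by
  classical
  choose T hT hTc using hcov
  let F := EuclideanSpace ℝ (Fin 0)
  let H : (∀ j, E j) ≃ₜ PiLp 2 E := (PiLp.continuousLinearEquiv 2 ℝ E).symm.toHomeomorph
  let P := Pol K 0
  let Q : Set (∀ j, E j) := {x : ∀ j, E j | (WithLp.toLp 2 x : PiLp 2 E) ∈ P}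
  have hQH : Q = H ⁻¹' P := rfl
  have hQv : Convex ℝ Q := by
    intro a ha b hb p q hp hq hpq
    have h1 : p • (WithLp.toLp 2 a : PiLp 2 E) + q • (WithLp.toLp 2 b : PiLp 2 E) ∈ P :=
      Pol.convex K 0 ha hb hp hq hpq
    exact h1
  have hQc : IsCompact Q := by
    rw [hQH]
    exact H.isCompact_preimage.2 (Pol.isCompact hK0)
  have hQi : (interior Q).Nonempty := by
    rw [hQH, ← H.preimage_interior]
    exact ⟨0, by
      show H 0 ∈ interior P
      have : H 0 = 0 := rfl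
      rw [this]
      exact Pol.zero_mem_interior hKc⟩
  let R : Set (F × (∀ j, E j)) := {p | p.2 ∈ Q}
  have hR : R = univ ×ˢ Q := by
    ext p; simp [R]
  have hRi : interior R = univ ×ˢ interior Q := by
    rw [hR, interior_prod_eq, interior_univ]
  obtain ⟨S, hS, h1⟩ := Pool.Agent.H765R3.Had.cover' (F := F) (K := R) (L := fun j => Pol (L j) 0)
    (fun j => Pol.convex _ _) (fun j => Pol.isCompact (hL0 j))
    (fun j => Pol.zero_mem_interior (hLc j))
    (by rw [hR]; exact convex_univ.prod hQv)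
    (by
      rw [hR]
      have : IsCompact (univ : Set F) := (Set.finite_univ (α := F)).isCompact
      exact this.prod hQc)
    (by
      rw [hRi]
      exact ⟨(0, hQi.some), trivial, hQi.some_mem⟩)
    (by
      intro x y y' hxy hle
      exact pol_mono hL hLc hL0 hinv hxy hle)
    T hTc
  have h2 : Q ⊆ ⋃ t ∈ S.image Prod.snd, (fun x => t + x) '' interior Q := by
    intro y hy
    have h3 : ((0 : F), y) ∈ R := hy
    obtain ⟨t, ht, q, hq, hqe⟩ := Set.mem_iUnion₂.1 (h1 h3)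
    rw [hRi] at hq
    refine Set.mem_iUnion₂.2 ⟨t.2, Finset.mem_image_of_mem _ ht, q.2, hq.2, ?_⟩
    have := congrArg Prod.snd hqe
    exact this
  obtain ⟨S', hS', h4⟩ := cov_transport _ h2
  refine ⟨S', hS'.trans (Finset.card_image_le.trans (hS.trans ?_)), h4⟩
  exact Nat.sub_le_sub_right (Finset.prod_le_prod' fun i _ => Nat.succ_le_succ (hT i)) 1

end Pool.Agent.R166.Solid

namespace Pool.Agent.R166.Solid

open Set Topology Module
open scoped InnerProductSpace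
open Pool.Agent.TH438.Hull

variable {E : Fin 3 → Type} [∀ j, NormedAddCommGroup (E j)]
  [∀ j, InnerProductSpace ℝ (E j)] [∀ j, FiniteDimensional ℝ (E j)] [∀ j, Nontrivial (E j)]

/-- three blocks -/
theorem three_pol {L : ∀ j, Set (E j)} (hL : ∀ j, Convex ℝ (L j)) (hLc : ∀ j, IsCompact (L j))
    (hL0 : ∀ j, (0 : E j) ∈ interior (L j)) {K : Set (PiLp 2 E)} (hKc : IsCompact K)
    (hK0 : (0 : PiLp 2 E) ∈ interior K)
    (hinv : ∀ x ∈ K, ∀ y : PiLp 2 E, (∀ j, gauge (L j) (y j) = gauge (L j) (x j)) → y ∈ K)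
    (N : Fin 3 → ℕ) (hN : ∀ j, 2 ≤ N j)
    (hcov : ∀ j, ∃ T : Finset (E j), T.card ≤ N j ∧
      Pol (L j) 0 ⊆ ⋃ t ∈ T, (fun x => t + x) '' interior (Pol (L j) 0)) :
    ∃ T : Finset (PiLp 2 E), T.card ≤ ∏ j, N j ∧
      Pol K 0 ⊆ ⋃ t ∈ T, (fun x => t + x) '' interior (Pol K 0) := by
  obtain ⟨M, hM1, hM2, hM3, hM4, hM5⟩ := exists_M hL hLc hL0 hKc hK0 hinv
  obtain ⟨-, -, -, T, hT, h1⟩ := Pool.Agent.R753.Three.three (fun j => Pol (L j) 0)
    (fun j => Pol.convex _ _) (fun j => Pol.isCompact (hL0 j))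
    (fun j => Pol.zero_mem_interior (hLc j)) N hN hcov M hM1 hM2 hM3 hM4 _ hM5
    (bounded_pre (Pol.isCompact hK0))
  obtain ⟨S, hS, h2⟩ := cov_transport T h1
  exact ⟨S, hS.trans hT, h2⟩

end Pool.Agent.R166.Solid
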